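import Pool.Agent.H21.ASY.Stmts

/-!
# ASY, row LAT: lattice points under the graph of a decreasing function
-/

set_option autoImplicit false

namespace Pool.ASY

open Finset MeasureTheory Pool.Agent.H98.ABCR Pool.SHA
open scoped ArithmeticFunction.Moebius

namespace H2LAT

/-- one row -/
theorem row (x : ℝ) (hx : 0 ≤ x) (m v : ℕ) (hm : 0 < m) :
    |(((Icc 1 ⌊x⌋₊).filter (fun b => b ≡ v [MOD m])).card : ℝ) - x / m| ≤ 1 := by
  have e0 : Icc 1 ⌊x⌋₊ = Ioc 0 ⌊x⌋₊ := by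
    ext b; simp only [mem_Icc, mem_Ioc]; omega
  have h1 := Nat.Ioc_filter_modEq_card 0 ⌊x⌋₊ hm v
  rw [e0]
  have hmR : (0 : ℝ) < m := by exact_mod_cast hm
  have hmQ : (0 : ℚ) < m := by exact_mod_cast hm
  set c : ℕ := ((Ioc 0 ⌊x⌋₊).filter (fun b => b ≡ v [MOD m])).card with hc
  -- floors
  have hB1 : ((⌊x⌋₊ : ℕ) : ℝ) ≤ x := Nat.floor_le hx
  have hB2 : x < (⌊x⌋₊ : ℕ) + 1 := Nat.lt_floor_add_one x
  set B : ℕ := ⌊x⌋₊ with hB
  have hmono : ⌊(((0 : ℕ) : ℚ) - (v : ℚ)) / (m : ℚ)⌋ ≤ ⌊((B : ℚ) - (v : ℚ)) / (m : ℚ)⌋ := by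
    apply Int.floor_le_floor
    gcongr
    exact_mod_cast Nat.zero_le B
  rw [max_eq_left (by linarith)] at h1
  set F1 : ℤ := ⌊((B : ℚ) - (v : ℚ)) / (m : ℚ)⌋ with hF1
  set F0 : ℤ := ⌊(((0 : ℕ) : ℚ) - (v : ℚ)) / (m : ℚ)⌋ with hF0
  -- as integers: `m F1 ≤ B - v < m (F1 + 1)`
  have a1 : (F1 : ℚ) * m ≤ (B : ℚ) - v := by
    rw [← le_div_iff₀ hmQ]; exact Int.floor_le _
  have a2 : (B : ℚ) - v < ((F1 : ℚ) + 1) * m := by
    rw [← div_lt_iff₀ hmQ]; exact Int.lt_floor_add_one _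
  have b1 : (F0 : ℚ) * m ≤ ((0 : ℕ) : ℚ) - v := by
    rw [← le_div_iff₀ hmQ]; exact Int.floor_le _
  have b2 : ((0 : ℕ) : ℚ) - v < ((F0 : ℚ) + 1) * m := by
    rw [← div_lt_iff₀ hmQ]; exact Int.lt_floor_add_one _
  have a1' : F1 * m ≤ (B : ℤ) - v := by exact_mod_cast a1
  have a2' : (B : ℤ) - v < (F1 + 1) * m := by exact_mod_cast a2
  have b1' : F0 * m ≤ -(v : ℤ) := by
    have : (F0 : ℚ) * m ≤ -(v : ℚ) := by simpa using b1
    exact_mod_cast this
  have b2' : -(v : ℤ) < (F0 + 1) * m := by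
    have : -(v : ℚ) < ((F0 : ℚ) + 1) * m := by simpa using b2
    exact_mod_cast this
  -- `B < (c + 1) m`, `(c - 1) m < B`
  have c1 : (B : ℤ) + 1 ≤ ((c : ℤ) + 1) * m := by
    rw [h1]
    nlinarith
  have c2 : ((c : ℤ) - 1) * m ≤ (B : ℤ) := by
    rw [h1]
    nlinarith
  have c1R : ((B : ℝ)) + 1 ≤ ((c : ℝ) + 1) * m := by exact_mod_cast c1
  have c2R : ((c : ℝ) - 1) * m ≤ (B : ℝ) := by exact_mod_cast c2
  rw [abs_le]
  constructor
  · have : x / m ≤ (c : ℝ) + 1 := by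
      rw [div_le_iff₀ hmR]; linarith
    linarith
  · have : (c : ℝ) - 1 ≤ x / m := by
      rw [le_div_iff₀ hmR]; linarith
    linarith

/-- the rows divisible by `k` -/
theorem rows (N k : ℕ) (hk : 0 < k) (g : ℕ → ℝ) :
    ∑ a ∈ (Icc 1 N).filter (fun a => k ∣ a), g a = ∑ i ∈ range (N / k), g (k * (i + 1)) := by
  have e : (Icc 1 N).filter (fun a => k ∣ a) = (range (N / k)).image (fun i => k * (i + 1)) := by
    ext a
    simp only [mem_filter, mem_Icc, mem_image, mem_range]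
    constructor
    · rintro ⟨⟨h1, h2⟩, c, rfl⟩
      have hc : 0 < c := by
        rcases Nat.eq_zero_or_pos c with h | h
        · subst h; simp at h1
        · exact h
      refine ⟨c - 1, ?_, ?_⟩
      · have : c ≤ N / k := by
          rw [Nat.le_div_iff_mul_le hk]
          linarith [mul_comm k c]
        omega
      · rw [Nat.sub_add_cancel hc]
    · rintro ⟨i, hi, rfl⟩
      refine ⟨⟨?_, ?_⟩, dvd_mul_right _ _⟩
      · exact Nat.mul_pos hk (Nat.succ_pos i)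
      · have h1 : i + 1 ≤ N / k := hi
        have h2 := (Nat.le_div_iff_mul_le hk).1 h1
        linarith [mul_comm k (i + 1)]
  rw [e, sum_image]
  intro i _ j _ hij
  have := Nat.eq_of_mul_eq_mul_left hk hij
  omega

end H2LAT

open H2LAT in
theorem lat_thm : S_LAT := by
  intro Z β k m r hZ hk hm hanti hβ hβ0
  have hkR : (0 : ℝ) < k := by exact_mod_cast hk
  have hk1 : (1 : ℝ) ≤ k := by exact_mod_cast hk
  have hmR : (0 : ℝ) < m := by exact_mod_cast hm
  have hm1 : (1 : ℝ) ≤ m := by exact_mod_cast hm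
  -- the number of rows
  set n : ℕ := ⌊Z⌋₊ / k with hn
  have hnZ : (k : ℝ) * n ≤ Z := by
    have h1 : k * n ≤ ⌊Z⌋₊ := Nat.mul_div_le _ _
    have h2 : ((k * n : ℕ) : ℝ) ≤ (⌊Z⌋₊ : ℕ) := by exact_mod_cast h1
    push_cast at h2
    exact h2.trans (Nat.floor_le hZ)
  have hnZ2 : Z ≤ (k : ℝ) * (n + 1) := by
    have h1 : ⌊Z⌋₊ < k * (n + 1) := by
      have := Nat.lt_mul_div_succ ⌊Z⌋₊ hk
      exact this
    have h2 : ((⌊Z⌋₊ : ℕ) : ℝ) + 1 ≤ (k : ℝ) * (n + 1) := by exact_mod_cast h1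
    linarith [Nat.lt_floor_add_one Z]
  -- the antitone extension
  set β' : ℝ → ℝ := fun u => if u ≤ 0 then Z else β u with hβ'
  have hpos : ∀ u, 0 < u → β' u = β u := fun u hu => by
    simp only [hβ', if_neg (not_le.2 hu)]
  have hβ'anti : Antitone β' := by
    intro u w huw
    simp only [hβ']
    by_cases h1 : w ≤ 0
    · rw [if_pos h1, if_pos (huw.trans h1)]
    · push Not at h1
      rw [if_neg (not_le.2 h1)]
      by_cases h2 : u ≤ 0
      · rw [if_pos h2]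
        exact (hβ w h1).2
      · push Not at h2
        rw [if_neg (not_le.2 h2)]
        exact hanti h2 h1 huw
  have hβ'0 : ∀ u, 0 ≤ β' u := by
    intro u
    simp only [hβ']
    split_ifs with h
    · exact hZ
    · exact (hβ u (not_le.1 h)).1
  have hβ'Z : ∀ u, β' u ≤ Z := by
    intro u
    simp only [hβ']
    split_ifs with h
    · exact le_rfl
    · exact (hβ u (not_le.1 h)).2
  have hint : ∀ a b : ℝ, IntervalIntegrable β' volume a b := fun a b =>
    hβ'anti.intervalIntegrable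
  have hI : (∫ u in (0 : ℝ)..Z, β u) = ∫ u in (0 : ℝ)..Z, β' u := by
    rw [intervalIntegral.integral_of_le hZ, intervalIntegral.integral_of_le hZ]
    apply setIntegral_congr_fun measurableSet_Ioc
    intro u hu
    exact (hpos u hu.1).symm
  -- the scaled function
  have hf : Antitone fun t : ℝ => β' (k * t) := fun s t hst =>
    hβ'anti (mul_le_mul_of_nonneg_left hst hkR.le)
  have hscale : ∀ N : ℕ, ∫ t in (0 : ℝ)..(0 + (N : ℝ)), β' (k * t) =
      (k : ℝ)⁻¹ * ∫ u in (0 : ℝ)..(k * N), β' u := by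
    intro N
    rw [zero_add, intervalIntegral.integral_comp_mul_left (fun u => β' u) hkR.ne', mul_zero,
      smul_eq_mul]
  set S : ℝ := ∑ i ∈ range n, β (k * ((i : ℝ) + 1)) with hS
  have hS' : S = ∑ i ∈ range n, β' (k * ((i : ℝ) + 1)) := by
    rw [hS]
    apply sum_congr rfl
    intro i _
    rw [hpos]
    positivity
  set I : ℝ := ∫ u in (0 : ℝ)..Z, β' u with hIdef
  have h1 : (k : ℝ) * S ≤ I := by
    have h2 := AntitoneOn.sum_le_integral (x₀ := 0) (a := n) (f := fun t : ℝ => β' (k * t))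
      (hf.antitoneOn _)
    rw [hscale n] at h2
    have h3 : ∑ i ∈ range n, β' (k * (0 + ((i + 1 : ℕ) : ℝ))) = S := by
      rw [hS']
      apply sum_congr rfl
      intro i _
      push_cast
      rw [zero_add]
    rw [h3] at h2
    have h4 : (k : ℝ) * S ≤ ∫ u in (0 : ℝ)..(k * n), β' u := by
      have := mul_le_mul_of_nonneg_left h2 hkR.le
      rwa [← mul_assoc, mul_inv_cancel₀ hkR.ne', one_mul] at this
    refine h4.trans ?_
    have h5 : I = (∫ u in (0 : ℝ)..(k * n), β' u) + ∫ u in (k * n : ℝ)..Z, β' u :=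
      (intervalIntegral.integral_add_adjacent_intervals (hint _ _) (hint _ _)).symm
    have h6 : 0 ≤ ∫ u in (k * n : ℝ)..Z, β' u :=
      intervalIntegral.integral_nonneg hnZ fun u _ => hβ'0 u
    linarith
  have h2 : I ≤ k * Z + k * S := by
    have h2 := AntitoneOn.integral_le_sum (x₀ := 0) (a := n + 1) (f := fun t : ℝ => β' (k * t))
      (hf.antitoneOn _)
    rw [hscale (n + 1), sum_range_succ'] at h2
    have h3 : ∑ i ∈ range n, β' (k * (0 + ((i + 1 : ℕ) : ℝ))) = S := by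
      rw [hS']
      apply sum_congr rfl
      intro i _
      push_cast
      rw [zero_add]
    rw [h3] at h2
    have h3' : β' (k * (0 + ((0 : ℕ) : ℝ))) ≤ Z := hβ'Z _
    have h4 : ∫ u in (0 : ℝ)..(k * (n + 1 : ℕ)), β' u ≤ k * (S + Z) := by
      have h5 : (k : ℝ)⁻¹ * (∫ u in (0 : ℝ)..(k * (n + 1 : ℕ)), β' u) ≤ S + Z :=
        h2.trans (add_le_add le_rfl h3')
      have := mul_le_mul_of_nonneg_left h5 hkR.le
      rwa [← mul_assoc, mul_inv_cancel₀ hkR.ne', one_mul] at this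
    have h5 : (∫ u in (0 : ℝ)..(k * (n + 1 : ℕ)), β' u) =
        I + ∫ u in Z..(k * (n + 1 : ℕ) : ℝ), β' u :=
      (intervalIntegral.integral_add_adjacent_intervals (hint _ _) (hint _ _)).symm
    have h6 : 0 ≤ ∫ u in Z..(k * (n + 1 : ℕ) : ℝ), β' u :=
      intervalIntegral.integral_nonneg (by push_cast; linarith) fun u _ => hβ'0 u
    linarith
  -- the rows
  rw [rows _ _ hk, ← hn, hI]
  have h3 : |(∑ i ∈ range n, (((Icc 1 ⌊β ((k * (i + 1) : ℕ) : ℝ)⌋₊).filter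
      (fun b => b ≡ r (k * (i + 1)) [MOD m])).card : ℝ)) - S / m| ≤ n := by
    rw [hS, sum_div, ← sum_sub_distrib]
    refine (abs_sum_le_sum_abs _ _).trans ?_
    have : ∀ i ∈ range n, |(((Icc 1 ⌊β ((k * (i + 1) : ℕ) : ℝ)⌋₊).filter
      (fun b => b ≡ r (k * (i + 1)) [MOD m])).card : ℝ) - β (k * ((i : ℝ) + 1)) / m| ≤ 1 := by
      intro i _
      have e : ((k * (i + 1) : ℕ) : ℝ) = k * ((i : ℝ) + 1) := by push_cast; ring
      rw [e]
      exact row _ (hβ _ (by positivity)).1 m _ hm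
    refine (sum_le_sum this).trans ?_
    simp
  have h4 : |S / m - I / (k * m)| ≤ Z / m := by
    have e : S / m - I / (k * m) = (k * S - I) / k / m := by
      field_simp
    rw [e, abs_div, abs_of_pos hmR]
    apply div_le_div_of_nonneg_right _ hmR.le
    rw [abs_div, abs_of_pos hkR, div_le_iff₀ hkR, abs_le]
    constructor <;> nlinarith
  have h5 : (n : ℝ) ≤ Z := by nlinarith [Nat.cast_nonneg (α := ℝ) n]
  have h6 : Z / m ≤ Z := div_le_self hZ hm1
  have h7 := abs_sub_le (∑ i ∈ range n, (((Icc 1 ⌊β ((k * (i + 1) : ℕ) : ℝ)⌋₊).filter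
      (fun b => b ≡ r (k * (i + 1)) [MOD m])).card : ℝ)) (S / m) (I / (k * m))
  linarith

end Pool.ASY
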