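import Pool.Agent.H21.ASY.Stmts

/-!
# ASY, row LTR: pairs with divisibility conditions in the region
-/

set_option autoImplicit false

namespace Pool.ASY

open Finset MeasureTheory Pool.Agent.H98.ABCR Pool.SHA
open scoped ArithmeticFunction.Moebius

namespace H2LTR

/-- the residue class -/
def rr (k2 k3 : ℕ) (h : k2.Coprime k3) (a : ℕ) : ℕ := (Nat.chineseRemainder h 0 (a * (k3 - 1)) : ℕ)

theorem rr_iff (k2 k3 : ℕ) (h : k2.Coprime k3) (hk3 : 0 < k3) (a b : ℕ) :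
    b ≡ rr k2 k3 h a [MOD k2 * k3] ↔ k2 ∣ b ∧ k3 ∣ a + b := by
  have h1 : rr k2 k3 h a ≡ 0 [MOD k2] := (Nat.chineseRemainder h 0 (a * (k3 - 1))).2.1
  have h2 : rr k2 k3 h a ≡ a * (k3 - 1) [MOD k3] := (Nat.chineseRemainder h 0 (a * (k3 - 1))).2.2
  have e : a + a * (k3 - 1) = a * k3 := by
    obtain ⟨c, rfl⟩ : ∃ c, k3 = c + 1 := ⟨k3 - 1, by omega⟩
    rw [Nat.add_sub_cancel]; ring
  have h3 : a + a * (k3 - 1) ≡ 0 [MOD k3] := by
    rw [e, Nat.modEq_zero_iff_dvd]; exact dvd_mul_left _ _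
  rw [← Nat.modEq_and_modEq_iff_modEq_mul h]
  constructor
  · rintro ⟨h4, h5⟩
    refine ⟨(Nat.modEq_zero_iff_dvd).1 (h4.trans h1), ?_⟩
    rw [← Nat.modEq_zero_iff_dvd]
    exact ((Nat.ModEq.refl a).add (h5.trans h2)).trans h3
  · rintro ⟨h4, h5⟩
    refine ⟨((Nat.modEq_zero_iff_dvd).2 h4).trans h1.symm, ?_⟩
    have h6 : a + b ≡ a + a * (k3 - 1) [MOD k3] := ((Nat.modEq_zero_iff_dvd).2 h5).trans h3.symm
    exact (Nat.ModEq.add_left_cancel' a h6).trans h2.symm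

end H2LTR

open H2LTR in
theorem ltr_thm (h1 : S_LAT) (h2 : S_REG) : S_LTR := by
  intro T Z k1 k2 k3 hT hZ hk1 hk2 hk3 _ _ h23
  obtain ⟨β, hanti, hβ, hβ0, hreg, hAr⟩ := h2 T Z hT hZ
  have key := h1 Z β k1 (k2 * k3) (rr k2 k3 h23) hZ hk1 (Nat.mul_pos hk2 hk3) hanti hβ hβ0
  rw [← hAr] at key
  have e1 : (LC T Z k1 k2 k3 : ℝ) = ∑ a ∈ (Icc 1 ⌊Z⌋₊).filter (fun a => k1 ∣ a),
      (((Icc 1 ⌊β a⌋₊).filter (fun b => b ≡ rr k2 k3 h23 a [MOD k2 * k3])).card : ℝ) := by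
    rw [← Nat.cast_sum]
    congr 1
    unfold LC
    rw [card_filter, sum_product, sum_filter]
    apply sum_congr rfl
    intro a ha
    rw [mem_Icc] at ha
    have ha0 : (0 : ℝ) < a := by exact_mod_cast ha.1
    by_cases hka : k1 ∣ a
    · rw [if_pos hka, ← card_filter]
      congr 1
      ext b
      simp only [mem_filter, mem_Icc]
      rw [rr_iff k2 k3 h23 hk3]
      have hr : 1 ≤ b → ((((a + b : ℕ) : ℝ) ≤ Z ∧ ((nn (a, b) : ℕ) : ℝ) ≤ T) ↔ (b : ℝ) ≤ β a) := by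
        intro hb
        have hb0 : (0 : ℝ) < b := by exact_mod_cast hb
        rw [← hreg a b ha0 hb0]
        show _ ↔ (0 < (a : ℝ) ∧ 0 < (b : ℝ) ∧ (a : ℝ) + b ≤ Z ∧ (a : ℝ) * b * (a + b) ≤ T)
        have e : ((nn (a, b) : ℕ) : ℝ) = (a : ℝ) * b * (a + b) := by
          unfold nn
          push_cast
          ring
        rw [e]
        push_cast
        tauto
      have hβa := hβ a ha0
      constructor
      · rintro ⟨⟨hb1, hb2⟩, -, h3, h4, h5⟩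
        exact ⟨⟨hb1, Nat.le_floor ((hr hb1).1 h5)⟩, h3, h4⟩
      · rintro ⟨⟨hb1, hb2⟩, h3, h4⟩
        have h6 : (b : ℝ) ≤ β a := (Nat.le_floor_iff hβa.1).1 hb2
        exact ⟨⟨hb1, Nat.le_floor (h6.trans hβa.2)⟩, hka, h3, h4, (hr hb1).2 h6⟩
    · rw [if_neg hka]
      apply sum_eq_zero
      intro b _
      rw [if_neg]
      rintro ⟨h3, -⟩
      exact hka h3
  rw [e1]
  have e2 : (k1 : ℝ) * k2 * k3 = k1 * ((k2 * k3 : ℕ) : ℝ) := by push_cast; ring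
  rw [e2]
  exact key

end Pool.ASY
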