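import Pool.Agent.H21.ASY.Stmts

/-!
# ASY, row REG: the region lies under the graph of a decreasing function
-/

set_option autoImplicit false

namespace Pool.ASY

open Finset MeasureTheory Pool.Agent.H98.ABCR Pool.SHA
open scoped ArithmeticFunction.Moebius

namespace H2REG

/-- the graph -/
noncomputable def bt (T Z u : ℝ) : ℝ :=
  max 0 (min (Z - u) ((-u + Real.sqrt (u ^ 2 + 4 * T / u)) / 2))

theorem bt_nonneg (T Z u : ℝ) : 0 ≤ bt T Z u := le_max_left _ _

theorem bt_le (T Z u : ℝ) (hZ : 0 ≤ Z) (hu : 0 < u) : bt T Z u ≤ Z := by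
  unfold bt
  apply max_le hZ
  refine (min_le_left _ _).trans ?_
  linarith

theorem bt_zero (T Z u : ℝ) (hu : Z < u) : bt T Z u = 0 := by
  unfold bt
  apply max_eq_left
  refine (min_le_left _ _).trans ?_
  linarith

theorem bt_iff (T Z u w : ℝ) (hT : 0 ≤ T) (hu : 0 < u) (hw : 0 < w) :
    (u, w) ∈ reg T Z ↔ w ≤ bt T Z u := by
  have hTu : 0 ≤ T / u := div_nonneg hT hu.le
  have hD : 0 ≤ u ^ 2 + 4 * T / u := by
    rw [mul_div_assoc]; positivity
  have hs : Real.sqrt (u ^ 2 + 4 * T / u) ^ 2 = u ^ 2 + 4 * T / u := Real.sq_sqrt hD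
  have hs0 : 0 ≤ Real.sqrt (u ^ 2 + 4 * T / u) := Real.sqrt_nonneg _
  have key : u * w * (u + w) ≤ T ↔ w ≤ (-u + Real.sqrt (u ^ 2 + 4 * T / u)) / 2 := by
    have e1 : u * w * (u + w) ≤ T ↔ w * (u + w) ≤ T / u := by
      rw [le_div_iff₀ hu]
      constructor <;> intro h <;> linarith
    rw [e1]
    set s := Real.sqrt (u ^ 2 + 4 * T / u) with hsdef
    have e2 : T / u = (s ^ 2 - u ^ 2) / 4 := by
      rw [hs]; ring
    rw [e2]
    constructor
    · intro h
      have h2 : (2 * w + u) ^ 2 ≤ s ^ 2 := by nlinarith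
      have h3 : 2 * w + u ≤ s := le_of_sq_le_sq h2 hs0
      linarith
    · intro h
      have h3 : 2 * w + u ≤ s := by linarith
      have h2 : (2 * w + u) ^ 2 ≤ s ^ 2 := pow_le_pow_left₀ (by linarith) h3 2
      nlinarith
  show (0 < u ∧ 0 < w ∧ u + w ≤ Z ∧ u * w * (u + w) ≤ T) ↔ _
  unfold bt
  rw [key, le_max_iff, le_min_iff]
  constructor
  · rintro ⟨-, -, h1, h2⟩
    exact Or.inr ⟨by linarith, h2⟩
  · rintro (h | ⟨h1, h2⟩)
    · exact absurd h (not_le.2 hw)
    · exact ⟨hu, hw, by linarith, h2⟩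

theorem bt_meas (T Z : ℝ) : Measurable (bt T Z) := by
  unfold bt
  fun_prop

theorem reg_meas (T Z : ℝ) : MeasurableSet (reg T Z) := by
  unfold reg
  refine MeasurableSet.inter (measurableSet_lt measurable_const measurable_fst) ?_
  refine MeasurableSet.inter (measurableSet_lt measurable_const measurable_snd) ?_
  refine MeasurableSet.inter (measurableSet_le (f := fun x : ℝ × ℝ => x.1 + x.2)
    (by fun_prop) measurable_const) ?_
  exact measurableSet_le (f := fun x : ℝ × ℝ => x.1 * x.2 * (x.1 + x.2))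
    (by fun_prop) measurable_const

end H2REG

open H2REG in
theorem reg_thm : S_REG := by
  intro T Z hT hZ
  refine ⟨bt T Z, ?_, fun u hu => ⟨bt_nonneg T Z u, bt_le T Z u hZ hu⟩,
    fun u hu => bt_zero T Z u hu, fun u w hu hw => bt_iff T Z u w hT hu hw, ?_⟩
  · intro u hu v hv huv
    rcases (bt_nonneg T Z v).eq_or_lt with h | h
    · rw [← h]; exact bt_nonneg T Z u
    · have h1 : (v, bt T Z v) ∈ reg T Z := (bt_iff T Z v _ hT hv h).2 le_rfl
      refine (bt_iff T Z u _ hT hu h).1 ?_
      obtain ⟨-, h2, h3, h4⟩ := h1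
      simp only at h2 h3 h4
      refine ⟨hu, h2, ?_, ?_⟩
      · show u + bt T Z v ≤ Z
        linarith
      · show u * bt T Z v * (u + bt T Z v) ≤ T
        refine le_trans ?_ h4
        have hu0 : (0 : ℝ) < u := hu
        have hv0 : (0 : ℝ) < v := hv
        have h5 : u * bt T Z v ≤ v * bt T Z v := mul_le_mul_of_nonneg_right huv h2.le
        exact mul_le_mul h5 (by linarith) (by positivity) (by positivity)
  · have hvol : volume (reg T Z) = ∫⁻ u in Set.Ioc 0 Z, ENNReal.ofReal (bt T Z u) := by
      rw [Measure.volume_eq_prod, Measure.prod_apply (reg_meas T Z), ← lintegral_indicator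
        measurableSet_Ioc]
      apply lintegral_congr
      intro u
      by_cases hu : 0 < u
      · have e : Prod.mk u ⁻¹' reg T Z = Set.Ioc 0 (bt T Z u) := by
          ext w
          rw [Set.mem_preimage, Set.mem_Ioc]
          constructor
          · intro h
            exact ⟨h.2.1, (bt_iff T Z u w hT hu h.2.1).1 h⟩
          · rintro ⟨h1, h2⟩
            exact (bt_iff T Z u w hT hu h1).2 h2
        rw [e, Real.volume_Ioc, sub_zero]
        by_cases huZ : u ≤ Z
        · rw [Set.indicator_of_mem (show u ∈ Set.Ioc 0 Z from ⟨hu, huZ⟩)]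
        · rw [Set.indicator_of_notMem (fun h => huZ h.2), bt_zero T Z u (not_le.1 huZ),
            ENNReal.ofReal_zero]
      · have e : Prod.mk u ⁻¹' reg T Z = ∅ := by
          ext w
          rw [Set.mem_preimage, Set.mem_empty_iff_false, iff_false]
          intro h
          exact hu h.1
        rw [e, measure_empty, Set.indicator_of_notMem (fun h => hu h.1)]
    have hIo : IntegrableOn (bt T Z) (Set.Ioc 0 Z) volume := by
      apply Measure.integrableOn_of_bounded (M := Z)
      · simp
      · exact (bt_meas T Z).aestronglyMeasurable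
      · refine (ae_restrict_mem measurableSet_Ioc).mono fun u hu => ?_
        rw [Real.norm_of_nonneg (bt_nonneg T Z u)]
        exact bt_le T Z u hZ hu.1
    unfold Ar
    rw [hvol, ← ofReal_integral_eq_lintegral_ofReal hIo
      (Filter.Eventually.of_forall fun u => bt_nonneg T Z u),
      ENNReal.toReal_ofReal (integral_nonneg fun u => bt_nonneg T Z u),
      intervalIntegral.integral_of_le hZ]

end Pool.ASY
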